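import Pool.Agent.H664.QM.Stm

set_option autoImplicit false

/-! JOB GENFAM: a property invariant under field automorphisms in an entire family of varieties. -/

namespace Pool.Agent.H295.QM

open MvPolynomial Pool.Agent.H664.QM

theorem zeros_countable' {f : ℂ → ℂ} (hf : Differentiable ℂ f) {z0 : ℂ} (hne : f z0 ≠ 0) :
    {z | f z = 0}.Countable := by
  have hh : AnalyticOnNhd ℂ f Set.univ := hf.differentiableOn.analyticOnNhd isOpen_univ
  rcases hh.eqOn_zero_or_eventually_ne_zero_of_preconnected isPreconnected_univ with h0 | h0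
  · exact absurd (h0 (Set.mem_univ z0)) hne
  · have h1 : ({z | f z ≠ 0}ᶜ ∩ Set.univ).Countable := by
      apply (HereditarilyLindelofSpace.isLindelof _).countable_of_isDiscrete
        (isDiscrete_of_codiscreteWithin _)
      have : {z | f z ≠ 0} ∈ Filter.codiscreteWithin (Set.univ : Set ℂ) := h0
      refine Filter.mem_of_superset
        (Filter.inter_mem this (Filter.self_mem_codiscreteWithin Set.univ)) ?_
      intro z hz hz2
      exact hz2 hz.1
    refine h1.mono ?_
    intro z hz
    exact ⟨by simpa using hz, Set.mem_univ z⟩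

/-- polynomials in entire functions are entire -/
theorem diff_aeval {ι : Type} (T : Subfield ℂ) (f : ι → ℂ → ℂ) (hf : ∀ u, Differentiable ℂ (f u))
    (q : MvPolynomial ι T) : Differentiable ℂ fun s => aeval (fun u => f u s) q := by
  induction q using MvPolynomial.induction_on with
  | C c => simp
  | add p q hp hq =>
    simp only [map_add]
    exact hp.add hq
  | mul_X p u hp =>
    simp only [map_mul, aeval_X]
    exact hp.mul (hf u)

theorem countable_closure (S : Set ℂ) (hS : S.Countable) : Countable (Subfield.closure S) := by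
  have h1 := Subfield.cardinalMk_closure_le_max S
  have h2 : Cardinal.mk S ≤ Cardinal.aleph0 := Cardinal.mk_le_aleph0_iff.2 hS.to_subtype
  exact Cardinal.mk_le_aleph0_iff.1 (h1.trans (max_le h2 le_rfl))

theorem gen_abstract {n N K : ℕ} (Good : Set (Fin n ⊕ Fin n → ℂ) → Prop)
    (htr : ∀ (σ : ℂ ≃+* ℂ) (V V' : Set (Fin n ⊕ Fin n → ℂ)),
      (∀ p, p ∈ V ↔ (fun i => σ (p i)) ∈ V') → Good V → Good V')
    (f : Fin N → Fin K → ℂ → ℂ) (a : Fin N → Fin K → MvPolynomial (Fin n ⊕ Fin n) ℂ)
    (hf : ∀ k i, Differentiable ℂ (f k i)) (h : ¬ {s | Good (Vs f a s)}.Countable) :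
    {s | ¬ Good (Vs f a s)}.Countable := by
  classical
  -- the field of coefficients
  obtain ⟨S, hSd⟩ : ∃ S : Set ℂ, S = ⋃ (k : Fin N) (i : Fin K), Set.range fun m => coeff m (a k i) :=
    ⟨_, rfl⟩
  have hSc : S.Countable := by
    rw [hSd]
    exact Set.countable_iUnion fun k => Set.countable_iUnion fun i => Set.countable_range _
  have hSm : ∀ k i m, coeff m (a k i) ∈ Subfield.closure S := by
    intro k i m
    apply Subfield.subset_closure
    rw [hSd]
    exact Set.mem_iUnion.2 ⟨k, Set.mem_iUnion.2 ⟨i, ⟨m, rfl⟩⟩⟩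
  obtain ⟨T, hT⟩ : ∃ T : Subfield ℂ, T = Subfield.closure S := ⟨_, rfl⟩
  have : Countable T := by rw [hT]; exact countable_closure S hSc
  rw [← hT] at hSm
  -- the exceptional set
  obtain ⟨Φ, hΦ⟩ : ∃ Φ : MvPolynomial (Fin N × Fin K) T → ℂ → ℂ,
    ∀ q s, Φ q s = aeval (fun u : Fin N × Fin K => f u.1 u.2 s) q := ⟨_, fun _ _ => rfl⟩
  have hΦd : ∀ q, Differentiable ℂ (Φ q) := by
    intro q
    have : Φ q = fun s => aeval (fun u : Fin N × Fin K => f u.1 u.2 s) q := funext fun s => hΦ q s
    rw [this]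
    exact diff_aeval T (fun u : Fin N × Fin K => f u.1 u.2) (fun u => hf u.1 u.2) q
  have hcq : Countable (MvPolynomial (Fin N × Fin K) T) := by
    have h1 := MvPolynomial.cardinalMk_le_max (σ := Fin N × Fin K) (R := T)
    exact Cardinal.mk_le_aleph0_iff.1 (h1.trans (max_le (max_le Cardinal.mk_le_aleph0
      Cardinal.mk_le_aleph0) le_rfl))
  have hunc : Uncountable ℂ := by
    rw [← Cardinal.aleph0_lt_mk_iff, Cardinal.mk_complex]
    exact Cardinal.aleph0_lt_continuum
  obtain ⟨Z, hZ⟩ : ∃ Z : Set ℂ, Z = ⋃ q : MvPolynomial (Fin N × Fin K) T,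
    {s | Φ q s = 0 ∧ ∃ t, Φ q t ≠ 0} := ⟨_, rfl⟩
  have hZc : Z.Countable := by
    rw [hZ]
    refine Set.countable_iUnion fun q => ?_
    by_cases hq : ∃ t, Φ q t ≠ 0
    · obtain ⟨t, ht⟩ := hq
      exact (zeros_countable' (hΦd q) ht).mono fun s hs => hs.1
    · refine Set.Countable.mono ?_ Set.countable_empty
      intro s hs
      exact hq hs.2
  -- points outside of the exceptional set are alike
  have hZ1 : ∀ s, s ∉ Z → ∀ q, Φ q s = 0 → ∀ t, Φ q t = 0 := by
    intro s hs q hq t
    by_contra hne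
    apply hs
    rw [hZ]
    exact Set.mem_iUnion.2 ⟨q, hq, t, hne⟩
  have key : ∀ s t, s ∉ Z → t ∉ Z → Good (Vs f a s) → Good (Vs f a t) := by
    intro s t hs ht hg
    obtain ⟨σ, hσ⟩ := SF.exists_algEquiv_of_same_type (T := T) (Ω := ℂ)
      (fun u : Fin N × Fin K => f u.1 u.2 s) (fun u => f u.1 u.2 t) (by
        intro q
        rw [← hΦ, ← hΦ]
        exact ⟨fun hq => hZ1 s hs q hq t, fun hq => hZ1 t ht q hq s⟩)
    have hev : ∀ (p : Fin n ⊕ Fin n → ℂ) (k : Fin N) (i : Fin K),
        eval (fun j => σ (p j)) (a k i) = σ (eval p (a k i)) := by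
      intro p k i
      have h1 : map (σ : ℂ →+* ℂ) (a k i) = a k i := by
        ext m
        rw [coeff_map]
        exact σ.commutes ⟨_, hSm k i m⟩
      conv_lhs => rw [← h1]
      rw [eval_map]
      have h2 := eval₂_comp_left (σ : ℂ →+* ℂ) (RingHom.id ℂ) p (a k i)
      exact h2.symm
    refine htr (σ : ℂ ≃+* ℂ) (Vs f a s) (Vs f a t) ?_ hg
    intro p
    have e1 : ∀ k, ∑ i, f k i t * eval (fun j => σ (p j)) (a k i) =
        σ (∑ i, f k i s * eval p (a k i)) := by
      intro k
      rw [map_sum]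
      refine Finset.sum_congr rfl fun i _ => ?_
      rw [map_mul, hev, hσ (k, i)]
    constructor
    · rintro ⟨h1, h2⟩
      refine ⟨fun k => ?_, fun j => ?_⟩
      · show ∑ i, f k i t * eval (fun j => σ (p j)) (a k i) = 0
        rw [e1, h1, map_zero]
      · show σ (p (Sum.inr j)) ≠ 0
        exact fun h3 => h2 j ((map_eq_zero_iff σ σ.injective).1 h3)
    · rintro ⟨h1, h2⟩
      refine ⟨fun k => ?_, fun j => ?_⟩
      · have h3 : ∑ i, f k i t * eval (fun j => σ (p j)) (a k i) = 0 := h1 k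
        rw [e1] at h3
        exact (map_eq_zero_iff σ σ.injective).1 h3
      · have h3 : σ (p (Sum.inr j)) ≠ 0 := h2 j
        exact fun h4 => h3 (by rw [h4, map_zero])
  -- conclusion
  have h3 : ∃ s, s ∉ Z ∧ Good (Vs f a s) := by
    by_contra hcon
    push Not at hcon
    exact h (hZc.mono fun s hs => by_contra fun hsZ => hcon s hsZ hs)
  obtain ⟨s, hs, hg⟩ := h3
  exact hZc.mono fun t ht => by_contra fun htZ => ht (key s t hs htZ hg)

/-- **JOB GENFAM** -/
theorem genfam (h : Pool.Agent.H664.QM.S_transport) : Pool.Agent.H664.QM.S_genfam := by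
  intro n N K f a hf hc
  exact gen_abstract GoodV (h n) f a hf hc

end Pool.Agent.H295.QM
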